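import Pool.Agent.Helper93.KS.St

/-!
# Project KS, module FN3: from the weighted sum to `P_3`
-/

set_option autoImplicit false

noncomputable section

namespace Pool.Agent.Helper6.KS

open Finset Filter Topology
open Pool.Agent.Helper93.KS
open Pool.Agent.Helper15.AB (ee Kl StDB StMT)
open Pool.Agent.Helper9.TW (gm Qs fm StMER StC9)
open Pool.Agent.Helper18.TR (StLevel)
open Pool.Agent.Helper93.KP (gk vk tk rn gn TK qk StC8P StVLP StRTS StWEI)

private theorem box_FN3 {a p j0 : ℕ} {ω : ℝ} : ∀ k : ℕ, j0 ≤ k →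
    (a : ℝ) ^ ((j0 : ℝ) * ω) ≤ (p : ℝ) → (p : ℝ) < (a : ℝ) ^ ((k : ℝ) * ω) →
    ∃ i, j0 ≤ i ∧ i < k ∧ (a : ℝ) ^ ((i : ℝ) * ω) ≤ (p : ℝ) ∧
      (p : ℝ) < (a : ℝ) ^ (((i : ℝ) + 1) * ω) := by
  intro k hk h0
  induction k, hk using Nat.le_induction with
  | base => intro h; exact absurd h (not_lt.2 h0)
  | succ k hk ih =>
    intro h
    by_cases h1 : (p : ℝ) < (a : ℝ) ^ ((k : ℝ) * ω)
    · obtain ⟨i, h2, h3, h4⟩ := ih h1
      exact ⟨i, h2, by omega, h4⟩
    · refine ⟨k, hk, by omega, not_lt.1 h1, ?_⟩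
      push_cast at h
      exact h

private theorem ev_log {c : ℝ} (hc : 0 < c) :
    ∀ᶠ a : ℕ in atTop, Real.log a ^ 3 ≤ c * (a : ℝ) ^ (1 / 10 : ℝ) := by
  have hcast : Tendsto (fun a : ℕ => (a : ℝ)) atTop atTop := tendsto_natCast_atTop_atTop
  have h2 : ∀ᶠ x : ℝ in atTop, ‖Real.log x ^ (3 : ℝ)‖ ≤ c * ‖x ^ (1 / 10 : ℝ)‖ :=
    (isLittleO_log_rpow_rpow_atTop (3 : ℝ) (by norm_num : (0 : ℝ) < 1 / 10)).bound hc
  filter_upwards [eventually_ge_atTop 1, hcast.eventually h2] with a e1 e2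
  have ha : (1 : ℝ) ≤ a := by exact_mod_cast e1
  have hl : 0 ≤ Real.log a := Real.log_nonneg ha
  have e5 : Real.log (a : ℝ) ^ (3 : ℝ) = Real.log a ^ 3 := by
    rw [← Real.rpow_natCast]
    norm_num
  rw [e5, Real.norm_of_nonneg (by positivity), Real.norm_of_nonneg (by positivity)] at e2
  exact e2

private theorem vk_succ {n k : ℕ} (hk : 1 ≤ k) (h : k < n) : vk n k + 1 = k * (n - k) := by
  unfold vk
  have h1 : 1 ≤ k * (n - k) := Nat.mul_pos hk (by omega)
  omega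

/-- (FN3). -/
theorem hFN3 (hF : StFS1) (hC : StCQ) (hS : StPSQ) (hP : StPT3) : StFN3 := by
  classical
  obtain ⟨u, j0, hu, hj0, hj0u, η, c, hη, hc, n₀, hCQ⟩ := hC 1 19 78 (697 / 1000) kf1 (by norm_num)
    (by norm_num) (by norm_num) (by norm_num) (by norm_num) (fun u j => by
      unfold kf1
      split_ifs
      · norm_num
      · norm_num) hF
  refine ⟨u, j0, hu, hj0, hj0u, η, ?_⟩
  obtain ⟨C, hC0, hPS⟩ := hS
  have hur : (0 : ℝ) < u := by exact_mod_cast (by omega : 0 < u)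
  obtain ⟨ω, hω⟩ : ∃ ω : ℝ, ω = 1 / (100 * (u : ℝ)) := ⟨_, rfl⟩
  rw [← hω] at hCQ
  have hωp : 0 < ω := by rw [hω]; positivity
  obtain ⟨θ, hθ⟩ : ∃ θ : ℝ, θ = (j0 : ℝ) * ω := ⟨_, rfl⟩
  rw [← hθ] at hCQ
  have h19 : ((19 * u : ℕ) : ℝ) * ω = 19 / 100 := by
    rw [hω]
    push_cast
    field_simp
  obtain ⟨n₁, hn₁⟩ := eventually_atTop.1 (ev_log (div_pos hc (mul_pos two_pos hC0)))
  refine ⟨c / 2, hη, half_pos hc, max (max n₀ n₁) 60, ?_⟩
  intro n hn hGD
  have hn0 : n₀ ≤ n := (le_max_left _ _).trans ((le_max_left _ _).trans hn)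
  have hn1 : n₁ ≤ n := (le_max_right _ _).trans ((le_max_left _ _).trans hn)
  have hn60 : 60 ≤ n := (le_max_right _ _).trans hn
  have hlog := hn₁ n hn1
  have hsum := hCQ n hn0 hGD
  have hbad := hPS n hn60
  have hnr : (60 : ℝ) ≤ n := by exact_mod_cast hn60
  have hnp : (0 : ℝ) < n := by linarith
  have hn1r : (1 : ℝ) < n := by linarith
  have hlogp : 0 < Real.log n := Real.log_pos hn1r
  set f : ℕ → ℝ := fun j => qk n θ n (30 * j) * idq n ω j0 (19 * u) (vk n (30 * j)) *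
      (1 - ∑ i ∈ Ico (19 * u) (78 * u), 697 / 1000 * (1 - (i : ℝ) / (((78 : ℕ) : ℝ) * u)) *
        (ejq n ω i (vk n (30 * j)) : ℝ)) with hf
  set Bad : Finset ℕ := (Icc 1 (n / 60)).filter (fun j => ∃ p : ℕ, p.Prime ∧
    (n : ℝ) ^ (11 / 100 : ℝ) ≤ (p : ℝ) ∧ (p : ℝ) ≤ (n : ℝ) ^ (82 / 100 : ℝ) ∧
    p ^ 2 ∣ vk n (30 * j)) with hBad
  set S : Finset ℕ := (Icc 1 (n / 60)).filter (fun j => 0 < f j) with hSdef
  have hsumnn : ∀ j : ℕ, 0 ≤ ∑ i ∈ Ico (19 * u) (78 * u),
      697 / 1000 * (1 - (i : ℝ) / (((78 : ℕ) : ℝ) * u)) * (ejq n ω i (vk n (30 * j)) : ℝ) := by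
    intro j
    apply Finset.sum_nonneg
    intro i hi
    rw [Finset.mem_Ico] at hi
    have h1 : (i : ℝ) ≤ ((78 : ℕ) : ℝ) * u := by exact_mod_cast hi.2.le
    have h2 : 0 ≤ 1 - (i : ℝ) / (((78 : ℕ) : ℝ) * u) := by
      rw [sub_nonneg, div_le_one (by positivity)]
      exact h1
    positivity
  have hf1 : ∀ j, f j ≤ 1 := by
    intro j
    have h2 := hsumnn j
    simp only [hf]
    unfold qk idq
    split_ifs <;> simp only [zero_mul, mul_zero, one_mul, mul_one, zero_le_one] <;> linarith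
  have hcount : ∑ j ∈ Icc 1 (n / 60), f j ≤ (S.card : ℝ) := by
    calc ∑ j ∈ Icc 1 (n / 60), f j
        ≤ ∑ j ∈ Icc 1 (n / 60), (if 0 < f j then (1 : ℝ) else 0) := by
          apply Finset.sum_le_sum
          intro j _
          split_ifs with h
          · exact hf1 j
          · exact not_lt.1 h
      _ = (S.card : ℝ) := by
          rw [← Finset.sum_filter, Finset.sum_const, nsmul_eq_mul, mul_one]
  -- properties of the members
  have hmem : ∀ j ∈ S \ Bad, 30 * j ∈ kr 3 n := by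
    intro j hj
    rw [Finset.mem_sdiff, hSdef, hBad, Finset.mem_filter, Finset.mem_filter] at hj
    obtain ⟨⟨hJ, hpos⟩, hnb⟩ := hj
    have hnb' : ∀ p : ℕ, p.Prime → (n : ℝ) ^ (11 / 100 : ℝ) ≤ (p : ℝ) →
        (p : ℝ) ≤ (n : ℝ) ^ (82 / 100 : ℝ) → ¬ p ^ 2 ∣ vk n (30 * j) :=
      fun p h1 h2 h3 h4 => hnb ⟨hJ, p, h1, h2, h3, h4⟩
    rw [Finset.mem_Icc] at hJ
    obtain ⟨hj1, hjK⟩ := hJ
    have hk1 : 1 ≤ 30 * j := by omega
    have hk2 : 30 * j ≤ n / 2 := by omega
    have hkn : 30 * j < n := by omega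
    have hvs := vk_succ hk1 hkn
    have hq : qk n θ n (30 * j) = 1 := by
      by_contra hcon
      have : qk n θ n (30 * j) = 0 := by
        unfold qk at hcon ⊢
        split_ifs at hcon ⊢ with h
        · exact absurd rfl hcon
        · rfl
      simp only [hf, this, zero_mul, lt_irrefl] at hpos
    have hi : idq n ω j0 (19 * u) (vk n (30 * j)) = 1 := by
      by_contra hcon
      have : idq n ω j0 (19 * u) (vk n (30 * j)) = 0 := by
        unfold idq at hcon ⊢
        split_ifs at hcon ⊢ with h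
        · rfl
        · exact absurd rfl hcon
      simp only [hf, this, mul_zero, zero_mul, lt_irrefl] at hpos
    have hs' : ∑ i ∈ Ico (19 * u) (78 * u), 697 / 1000 * (1 - (i : ℝ) / (78 * u)) *
        (ejq n (1 / (100 * u)) i (vk n (30 * j)) : ℝ) < 1 := by
      simp only [hf, hq, hi, one_mul, sub_pos, Nat.cast_ofNat] at hpos
      rw [← hω]
      exact hpos
    have hq' : ∀ p ∈ Qs n θ, ¬ (p : ℤ) ∣ gk n (30 * j) := by
      by_contra hcon
      unfold qk at hq
      rw [if_neg hcon] at hq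
      norm_num at hq
    have hi' : ¬ ∃ p ∈ Pq n ω j0 (19 * u), p ∣ vk n (30 * j) := by
      intro hcon
      unfold idq at hi
      rw [if_pos hcon] at hi
      norm_num at hi
    have h30p : ∀ p : ℕ, p.Prime → p ∣ vk n (30 * j) → ¬ p ∣ 30 := by
      intro p hp hd hd30
      have h1 : p ∣ vk n (30 * j) + 1 := by
        rw [hvs]
        exact Dvd.dvd.mul_right (Dvd.dvd.mul_right hd30 _) _
      have h2 : p ∣ 1 := (Nat.dvd_add_right hd).1 h1
      exact hp.one_lt.ne' (Nat.dvd_one.1 h2)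
    have hbig : ∀ p : ℕ, p.Prime → p ∣ vk n (30 * j) → (n : ℝ) ^ θ ≤ (p : ℝ) := by
      intro p hp hd
      by_contra hcon
      push Not at hcon
      by_cases h7 : 7 ≤ p
      · apply hq' p _ ((Pool.Agent.Helper93.KP.dvd_vk n (30 * j) p hk1 hkn).1 hd)
        unfold Qs
        rw [Finset.mem_filter, Finset.mem_Icc]
        exact ⟨⟨h7, Nat.le_floor hcon.le⟩, hp, hcon⟩
      · have h6 : p < 7 := by omega
        have h30' := h30p p hp hd
        interval_cases p
        · exact absurd hp (by norm_num)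
        · exact absurd hp (by norm_num)
        · exact h30' (by norm_num)
        · exact h30' (by norm_num)
        · exact absurd hp (by norm_num)
        · exact h30' (by norm_num)
        · exact absurd hp (by norm_num)
    have hbig2 : ∀ p : ℕ, p.Prime → p ∣ vk n (30 * j) → (n : ℝ) ^ (19 / 100 : ℝ) ≤ (p : ℝ) := by
      intro p hp hd
      by_contra hcon
      push Not at hcon
      have hb1 := hbig p hp hd
      rw [hθ] at hb1
      rw [← h19] at hcon
      obtain ⟨i, hi1, hi2, hi3, hi4⟩ := box_FN3 (a := n) (p := p) (j0 := j0) (ω := ω) (19 * u)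
        hj0u hb1 hcon
      apply hi'
      refine ⟨p, ?_, hd⟩
      simp only [Pq, Finset.mem_biUnion, Finset.mem_Ico]
      refine ⟨i, ⟨hi1, hi2⟩, ?_⟩
      unfold bq
      rw [Finset.mem_filter, Finset.mem_range, Nat.lt_ceil]
      exact ⟨hi4, hp, hi3⟩
    have hv1 : 1 ≤ vk n (30 * j) := by
      have h1 : 30 * j * 1 ≤ 30 * j * (n - 30 * j) := Nat.mul_le_mul_left _ (by omega)
      omega
    have hvr : ((vk n (30 * j) : ℕ) : ℝ) ≤ (n : ℝ) ^ 2 := by
      have h1 : vk n (30 * j) ≤ n * n := by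
        have : 30 * j * (n - 30 * j) ≤ n * n := Nat.mul_le_mul hkn.le (Nat.sub_le _ _)
        omega
      have h2 : ((vk n (30 * j) : ℕ) : ℝ) ≤ n * n := by exact_mod_cast h1
      rw [pow_two]
      exact h2
    have hP3 := hP u n (vk n (30 * j)) hu (by omega) hv1 hvr hbig2 (by
      intro p hp hle hd
      have hd' : p ∣ vk n (30 * j) := (dvd_pow_self p (by norm_num)).trans hd
      exact hnb' p hp ((Real.rpow_le_rpow_of_exponent_le hn1r.le (by norm_num)).trans
        (hbig2 p hp hd')) hle hd) hs'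
    unfold kr
    rw [Finset.mem_filter, Finset.mem_Icc]
    exact ⟨⟨hk1, hk2⟩, hP3⟩
  have hcard : (S \ Bad).card ≤ (kr 3 n).card := by
    apply Finset.card_le_card_of_injOn (fun j => 30 * j)
    · intro j hj
      exact hmem j hj
    · intro j _ j' _ he
      simp only at he
      omega
  have hcard2 : S.card ≤ (kr 3 n).card + Bad.card := by
    have h1 := Finset.le_card_sdiff Bad S
    omega
  have hcard' : (S.card : ℝ) ≤ ((kr 3 n).card : ℝ) + (Bad.card : ℝ) := by exact_mod_cast hcard2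
  have hlow : C * (n : ℝ) ^ (9 / 10 : ℝ) ≤ c / 2 * n / Real.log n ^ 3 := by
    rw [le_div_iff₀ (by positivity)]
    calc C * (n : ℝ) ^ (9 / 10 : ℝ) * Real.log n ^ 3
        ≤ C * (n : ℝ) ^ (9 / 10 : ℝ) * (c / (2 * C) * (n : ℝ) ^ (1 / 10 : ℝ)) :=
          mul_le_mul_of_nonneg_left hlog (by positivity)
      _ = c / 2 * ((n : ℝ) ^ (9 / 10 : ℝ) * (n : ℝ) ^ (1 / 10 : ℝ)) := by
          field_simp
      _ = c / 2 * n := by
          rw [← Real.rpow_add hnp]
          norm_num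
  have hsum' : c * n / Real.log n ^ 3 ≤ ∑ j ∈ Icc 1 (n / 60), f j := hsum
  have hhalf : c * n / Real.log n ^ 3 = c / 2 * n / Real.log n ^ 3 + c / 2 * n / Real.log n ^ 3 := by
    ring
  linarith [hbad]

end Pool.Agent.Helper6.KS
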